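import Pool.Agent.Bht.AQ.ALL

/-! Bahturin's question on multilinear Lie monomial identities: the full answer, for all bracket
structures over every field. -/

namespace Pool.Agent.Results.MP_5ecbac_al.Bahturin

open Pool.Agent.H25

universe u

/-- Over every field `K`, the identities of two bracket structures `s` and `t` hold in the same Lie
algebras over `K` if and only if `s` and `t` are isomorphic as trees with unordered children. -/
theorem result (K : Type u) [Field K] (s t : BT) :
    (∀ (A : Type u) [LieRing A] [LieAlgebra K A], Holds K s A ↔ Holds K t A) ↔ BT.Iso s t :=
  Pool.Agent.Bht.BK.AQ.full K s t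

end Pool.Agent.Results.MP_5ecbac_al.Bahturin
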